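import Pool.Agent.H508R3.WS.Stmts

/-! Project H508-WEISS, task C. -/

set_option autoImplicit false

namespace Pool.Agent.H296R3.WS

open Filter Topology Pool.Agent.H508R3.WS

theorem log_mono {a b : ℕ} (h : a ≤ b) : Real.log a ≤ Real.log b := by
  rcases Nat.eq_zero_or_pos a with rfl | ha
  · simpa using Real.log_natCast_nonneg b
  · exact Real.log_le_log (by exact_mod_cast ha) (by exact_mod_cast h)

theorem log_div_mono {a b : ℕ} (h : a ≤ b) (T : ℕ) :
    Real.log a / (T : ℝ) ≤ Real.log b / (T : ℝ) :=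
  div_le_div_of_nonneg_right (log_mono h) (Nat.cast_nonneg T)

variable {X : Type} [MetricSpace X] [CompactSpace X] {F : X → X}

/-- separated sets have bounded cardinality -/
theorem bdd (hF : Continuous F) {ε : ℝ} (hε : 0 < ε) (T : ℕ) :
    ∃ N : ℕ, ∀ E : Finset X, Sep (Le (fun x y : X => dist x y) ε) F T E → E.card ≤ N := by
  have hΦ : Continuous (fun (x : X) (t : Fin T) => F^[(t : ℕ)] x) :=
    continuous_pi (fun t => hF.iterate t)
  have hu := CompactSpace.uniformContinuous_of_continuous hΦ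
  obtain ⟨d, hd, hd'⟩ := Metric.uniformContinuous_iff.1 hu ε hε
  obtain ⟨s, -, hs, hcov⟩ := finite_cover_balls_of_compact (isCompact_univ (X := X)) (half_pos hd)
  have hf : ∀ x : X, ∃ y ∈ s, x ∈ Metric.ball y (d / 2) := by
    intro x
    have := hcov (Set.mem_univ x)
    simpa using this
  choose f hf1 hf2 using hf
  refine ⟨hs.toFinset.card, fun E hE => ?_⟩
  refine Finset.card_le_card_of_injOn f (fun x _ => by simpa using hf1 x) ?_
  intro x hx y hy hxy
  by_contra hne
  obtain ⟨t, ht, hR⟩ := hE x hx y hy hne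
  apply hR
  have h1 : dist x y < d := by
    have a1 := hf2 x
    have a2 := hf2 y
    rw [← hxy] at a2
    rw [Metric.mem_ball] at a1 a2
    calc dist x y ≤ dist x (f x) + dist y (f x) := dist_triangle_right x y (f x)
      _ < d := by linarith
  have h2 := hd' h1
  have h3 := (dist_pi_lt_iff hε).1 h2 ⟨t, ht⟩
  exact h3.le

theorem bddAbove (hF : Continuous F) {ε : ℝ} (hε : 0 < ε) (T : ℕ) :
    BddAbove {n | ∃ E : Finset X, Sep (Le (fun x y : X => dist x y) ε) F T E ∧ E.card = n} := by
  obtain ⟨N, hN⟩ := bdd hF hε T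
  refine ⟨N, ?_⟩
  rintro n ⟨E, hE, rfl⟩
  exact hN E hE

/-- a maximal separated set spans -/
theorem exists_span (hF : Continuous F) {ε : ℝ} (hε : 0 < ε) (T : ℕ) :
    ∃ S : Finset X, Span (Le (fun x y : X => dist x y) ε) F T S ∧
      S.card = sepN (Le (fun x y : X => dist x y) ε) F T := by
  classical
  have hne : {n | ∃ E : Finset X, Sep (Le (fun x y : X => dist x y) ε) F T E ∧ E.card = n}.Nonempty :=
    ⟨0, ∅, fun x hx => by simp at hx, rfl⟩
  obtain ⟨E, hE, hEc⟩ := Nat.sSup_mem hne (bddAbove hF hε T)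
  refine ⟨E, ?_, hEc⟩
  intro x
  by_contra hcon
  push Not at hcon
  have hxE : x ∉ E := by
    intro hx
    obtain ⟨t, _, ht⟩ := hcon x hx
    apply ht
    change dist _ _ ≤ ε
    rw [dist_self]
    exact hε.le
  have hins : Sep (Le (fun x y : X => dist x y) ε) F T (insert x E) := by
    intro a ha b hb hab
    rw [Finset.mem_insert] at ha hb
    rcases ha with rfl | ha
    · rcases hb with rfl | hb
      · exact absurd rfl hab
      · exact hcon b hb
    · rcases hb with rfl | hb
      · obtain ⟨t, h1, h2⟩ := hcon a ha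
        refine ⟨t, h1, fun h3 => h2 ?_⟩
        change dist _ _ ≤ ε at h3 ⊢
        rwa [dist_comm] at h3
      · exact hE a ha b hb hab
  have h1 : (insert x E).card ≤ sepN (Le (fun x y : X => dist x y) ε) F T :=
    le_csSup (bddAbove hF hε T) ⟨_, hins, rfl⟩
  rw [Finset.card_insert_of_notMem hxE, hEc] at h1
  unfold sepN at h1
  omega

theorem span_le_sep (hF : Continuous F) {ε : ℝ} (hε : 0 < ε) (T : ℕ) :
    spanN (Le (fun x y : X => dist x y) ε) F T ≤ sepN (Le (fun x y : X => dist x y) ε) F T := by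
  obtain ⟨S, hS, hc⟩ := exists_span hF hε T
  rw [← hc]
  exact Nat.sInf_le ⟨S, hS, rfl⟩

theorem span_anti (hF : Continuous F) {ε δ : ℝ} (hε : 0 < ε) (h : ε ≤ δ) (T : ℕ) :
    spanN (Le (fun x y : X => dist x y) δ) F T ≤ spanN (Le (fun x y : X => dist x y) ε) F T := by
  have hne : {n | ∃ S : Finset X, Span (Le (fun x y : X => dist x y) ε) F T S ∧
      S.card = n}.Nonempty := by
    obtain ⟨S, hS, _⟩ := exists_span hF hε T
    exact ⟨_, S, hS, rfl⟩
  obtain ⟨S, hS, hc⟩ := Nat.sInf_mem hne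
  have h1 : spanN (Le (fun x y : X => dist x y) ε) F T = S.card := hc.symm
  rw [h1]
  refine Nat.sInf_le ⟨S, fun x => ?_, rfl⟩
  obtain ⟨y, hy, hy2⟩ := hS x
  exact ⟨y, hy, fun t ht => le_trans (hy2 t ht) h⟩

theorem sep_anti (hF : Continuous F) {ε δ : ℝ} (hε : 0 < ε) (h : ε ≤ δ) (T : ℕ) :
    sepN (Le (fun x y : X => dist x y) δ) F T ≤ sepN (Le (fun x y : X => dist x y) ε) F T := by
  refine csSup_le_csSup (bddAbove hF hε T) ⟨0, ∅, fun x hx => by simp at hx, rfl⟩ ?_
  rintro n ⟨E, hE, rfl⟩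
  refine ⟨E, fun x hx y hy hxy => ?_, rfl⟩
  obtain ⟨t, ht, h2⟩ := hE x hx y hy hxy
  exact ⟨t, ht, fun h3 => h2 (le_trans h3 h)⟩

theorem taskC : TaskC := by
  intro X _ _ F hF δ h hδ hr hsep η hη
  set e := min δ (η / 2) with he
  have he0 : 0 < e := lt_min hδ (half_pos hη)
  have heδ : e ≤ δ := min_le_left _ _
  have heη : e ≤ η / 2 := min_le_right _ _
  have hcd : Continuous (fun p : X × X => dist p.1 p.2) := continuous_fst.dist continuous_snd
  have hup : ∀ h' : ℝ, h < h' → ∀ᶠ T : ℕ in atTop,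
      Real.log (sepN (Le (fun x y : X => dist x y) (e / 2)) F T) / T < h' :=
    fun h' hh' => hsep (e / 2) (half_pos he0) h' hh'
  have c1 : ∀ T, spanN (Le (fun x y : X => dist x y) δ) F T ≤
      spanN (Le (fun x y : X => dist x y) e) F T := span_anti hF he0 heδ
  have c2 : ∀ T, spanN (Le (fun x y : X => dist x y) e) F T ≤
      sepN (Le (fun x y : X => dist x y) (e / 2)) F T := fun T =>
    (span_le_sep hF he0 T).trans (sep_anti hF (half_pos he0) (half_le_self he0.le) T)
  refine ⟨Le (fun x y : X => dist x y) e, Le (fun x y : X => dist x y) (e / 2), h, ?_, ?_, ?_, ?_,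
    ?_, ?_, ?_, ?_⟩
  · exact isClosed_le hcd continuous_const
  · intro x y hxy
    change dist y x ≤ e / 2
    rw [dist_comm]
    exact hxy
  · intro x y hxy
    change dist y x ≤ e
    rw [dist_comm]
    exact hxy
  · intro x
    refine mem_interior.2 ⟨{p : X × X | dist p.1 p.2 < e / 2},
      fun p (hp : dist p.1 p.2 < e / 2) => show dist p.1 p.2 ≤ e / 2 from hp.le,
      isOpen_lt hcd continuous_const, ?_⟩
    change dist x x < e / 2
    rw [dist_self]
    exact half_pos he0
  · intro p hp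
    refine mem_interior.2 ⟨{p : X × X | dist p.1 p.2 < e},
      fun p (hp : dist p.1 p.2 < e) => show dist p.1 p.2 ≤ e from hp.le,
      isOpen_lt hcd continuous_const, ?_⟩
    change dist p.1 p.2 < e
    have : dist p.1 p.2 ≤ e / 2 := hp
    linarith
  · intro x y hxy
    have : dist x y ≤ e := hxy
    linarith
  · refine tendsto_order.2 ⟨fun a ha => ?_, fun h' hh' => ?_⟩
    · filter_upwards [(tendsto_order.1 hr).1 a ha] with T hT
      exact hT.trans_le (log_div_mono (c1 T) T)
    · filter_upwards [hup h' hh'] with T hT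
      exact (log_div_mono (c2 T) T).trans_lt hT
  · refine tendsto_order.2 ⟨fun a ha => ?_, fun h' hh' => hup h' hh'⟩
    filter_upwards [(tendsto_order.1 hr).1 a ha] with T hT
    exact hT.trans_le (log_div_mono ((c1 T).trans (c2 T)) T)

end Pool.Agent.H296R3.WS
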